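import Mathlib
import Pool.Agent.L5helper98.ID.Defs

/-!
# Exponential moments of a Gaussian field (MP_6ad96e_pr)
-/

set_option autoImplicit false

open MeasureTheory ProbabilityTheory Filter Topology Set
open scoped ENNReal BoundedContinuousFunction

namespace Pool.Agent.L5helper27.ID

open Pool.Agent.L5helper98.ID

/-- A symmetric double sum, split at the diagonal. -/
theorem sum_split {n : ℕ} (f : Fin n → Fin n → ℝ) (hf : ∀ i j, f i j = f j i) (c : ℝ)
    (hd : ∀ i, f i i = c) :
    ∑ i, ∑ j, f i j = n * c + 2 * ∑ i, ∑ j ∈ Finset.univ.filter (fun j => i < j), f i j := by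
  have h1 : ∀ i j, f i j = (if i < j then f i j else 0) + (if j < i then f i j else 0) +
      (if i = j then f i j else 0) := by
    intro i j
    rcases lt_trichotomy i j with h | h | h
    · rw [if_pos h, if_neg (not_lt.mpr h.le), if_neg h.ne]; ring
    · subst h
      rw [if_neg (lt_irrefl _), if_pos rfl]; ring
    · rw [if_neg (not_lt.mpr h.le), if_pos h, if_neg h.ne']; ring
  have h2 : ∑ i, ∑ j, f i j = ∑ i, ∑ j, ((if i < j then f i j else 0) +
      (if j < i then f i j else 0) + (if i = j then f i j else 0)) :=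
    Finset.sum_congr rfl fun i _ => Finset.sum_congr rfl fun j _ => h1 i j
  have h3 : ∑ i, ∑ j, (if j < i then f i j else 0) = ∑ i, ∑ j, (if i < j then f i j else 0) := by
    rw [Finset.sum_comm]
    refine Finset.sum_congr rfl fun i _ => Finset.sum_congr rfl fun j _ => ?_
    rw [hf j i]
  have h4 : ∑ i, ∑ j, (if i = j then f i j else 0) = n * c := by
    simp [hd]
  rw [h2]
  simp only [Finset.sum_add_distrib, Finset.sum_filter]
  rw [h3, h4]
  ring

/-- MGF: exponential moments of the field. -/
theorem MGF_holds : St_MGF := by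
  intro G μ Ω _ P _ ω hG hF n x
  have hgp : IsGaussianProcess (ω ∘ x) P := hF.gauss.comp_right x
  have hlaw : HasGaussianLaw (fun o => ∑ i, ω (x i) o) P :=
    hgp.hasGaussianLaw_fun_sum (I := Finset.univ)
  have hm := hlaw.map_eq_gaussianReal
  have h2 : ∀ i, MemLp (ω (x i)) 2 P := fun i => (hF.gauss.hasGaussianLaw_eval (x i)).memLp_two
  have hvar : Var[fun o => ∑ i, ω (x i) o; P] = ∑ i, ∑ j, μ * G (x i - x j) := by
    rw [← covariance_self hlaw.aemeasurable, covariance_fun_sum_fun_sum h2 h2]
    exact Finset.sum_congr rfl fun i _ => Finset.sum_congr rfl fun j _ => hF.cov _ _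
  have hmean : ∫ o, (∑ i, ω (x i) o) ∂P = n * (-(μ * G 0) / 2) := by
    rw [integral_finsetSum _ (fun i _ => (hF.gauss.hasGaussianLaw_eval (x i)).integrable)]
    have e : ∀ i, ∫ o, ω (x i) o ∂P = -(μ * G 0) / 2 := by
      intro i
      rw [hF.mean, ← covariance_self (hF.gauss.hasGaussianLaw_eval (x i)).aemeasurable, hF.cov,
        sub_self]
    simp [e]
  have hs := sum_split (fun i j => μ * G (x i - x j)) (fun i j => by
    show μ * G (x i - x j) = μ * G (x j - x i)
    rw [← hG (x i - x j), neg_sub]) (μ * G 0) (fun i => by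
    show μ * G (x i - x i) = μ * G 0
    rw [sub_self])
  have hmgf := mgf_gaussianReal hm 1
  have hval : mgf (fun o => ∑ i, ω (x i) o) P 1 =
      Real.exp (∑ i, ∑ j ∈ Finset.univ.filter (fun j => i < j), μ * G (x i - x j)) := by
    rw [hmgf]
    congr 1
    rw [Real.coe_toNNReal _ (variance_nonneg _ _), hvar, hmean, hs]
    ring
  have hint : Integrable (fun o => Real.exp (1 * ∑ i, ω (x i) o)) P := by
    rw [← mgf_pos_iff (X := fun o => ∑ i, ω (x i) o) (μ := P) (t := 1), hval]
    exact Real.exp_pos _
  have h5 := ofReal_integral_eq_lintegral_ofReal hint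
    (Filter.Eventually.of_forall fun o => (Real.exp_pos _).le)
  rw [← hval]
  unfold mgf
  rw [h5]
  simp only [one_mul]

end Pool.Agent.L5helper27.ID
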